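import Pool.Agent.V11151.DD.Pos
import Pool.Agent.V11151.DD.Z

/-!
# Outerplanar graphs have degenerate distance number at most two

Every finite outerplanar graph has an injective placement of its vertices in the plane for which
the edges have at most two different lengths.

Construction.  Let `z` be a transcendental complex number with `|z| = 1`.  The infinite
triangulation, in which every edge lies in two triangles, is drawn with triangles of sides
`1, 1, |1 - z|` only: they are grouped in pairs into rhombi, with sides `z ^ k` and `z ^ (k + 1)`.
On a side from `p` to `p + z ^ k`, where `p = a_0 + a_1 z + a_2 z ^ 2 + ...`, the next rhombus is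
put in the direction `z ^ (k + 1)` when `a_k` is even and in the direction `- z ^ (k + 1)` when
`a_k` is odd.  All vertices obtained are different polynomials in `z`.
-/

open Polynomial

namespace Pool.Agent.Results.MP_aa6a81_co.TwoLengths

universe u

/-- `G` is outerplanar: it has a plane straight-line drawing with its vertices at distinct points
of the unit circle, edges without a common end being disjoint chords. -/
def Outerplanar {V : Type u} (G : SimpleGraph V) : Prop :=
  ∃ p : V → EuclideanSpace ℝ (Fin 2), Function.Injective p ∧ (∀ v, ‖p v‖ = 1) ∧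
    ∀ a b c d, G.Adj a b → G.Adj c d → a ≠ c → a ≠ d → b ≠ c → b ≠ d →
      Disjoint (segment ℝ (p a) (p b)) (segment ℝ (p c) (p d))

/-- The set of edge lengths of the degenerate drawing `p` of `G`. -/
def edgeLengths {V : Type u} (G : SimpleGraph V) (p : V → EuclideanSpace ℝ (Fin 2)) : Set ℝ :=
  {x | ∃ v w, G.Adj v w ∧ x = dist (p v) (p w)}

/-- The degenerate distance number of a finite graph. -/
noncomputable def ddn {V : Type u} (G : SimpleGraph V) : ℕ :=
  sInf {k | ∃ p : V → EuclideanSpace ℝ (Fin 2), Function.Injective p ∧
    (edgeLengths G p).ncard = k}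

/-- Every finite outerplanar graph has an injective placement in the plane whose edge lengths form
a set of at most two elements; in particular its degenerate distance number is at most two. -/
theorem result (V : Type u) [Finite V] (G : SimpleGraph V) (hG : Outerplanar G) :
    (∃ p : V → EuclideanSpace ℝ (Fin 2), Function.Injective p ∧
      (edgeLengths G p).Finite ∧ (edgeLengths G p).ncard ≤ 2) ∧ ddn G ≤ 2 := by
  obtain ⟨F, hF, hE⟩ := V11151.DD.positions (G := G) hG
  obtain ⟨z, hz, ht⟩ := V11151.DD.exists_z
  have hinj : Function.Injective (fun q : ℤ[X] => aeval z q) := by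
    intro a b hab
    by_contra hne
    exact ht ⟨a - b, sub_ne_zero.mpr hne, by simp only [map_sub]; exact sub_eq_zero.mpr hab⟩
  have hsub : edgeLengths G (fun v => V11151.DD.toE (aeval z (F v))) ⊆ {1, ‖1 - z‖} := by
    rintro x ⟨v, w, hvw, rfl⟩
    obtain ⟨R, hR⟩ := hE v w hvw
    rw [V11151.DD.dist_toE]
    exact hR.length hz
  have hfin : (edgeLengths G (fun v => V11151.DD.toE (aeval z (F v)))).Finite :=
    (Set.toFinite _).subset hsub
  have hcard : (edgeLengths G (fun v => V11151.DD.toE (aeval z (F v)))).ncard ≤ 2 :=
    (Set.ncard_le_ncard hsub (Set.toFinite _)).trans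
      ((Set.ncard_insert_le _ _).trans (by rw [Set.ncard_singleton]))
  have hp : Function.Injective (fun v => V11151.DD.toE (aeval z (F v))) :=
    fun a b hab => hF (hinj (V11151.DD.toE_inj hab))
  have hmem : (edgeLengths G (fun v => V11151.DD.toE (aeval z (F v)))).ncard ∈
      {k | ∃ p : V → EuclideanSpace ℝ (Fin 2), Function.Injective p ∧
        (edgeLengths G p).ncard = k} := ⟨_, hp, rfl⟩
  exact ⟨⟨_, hp, hfin, hcard⟩, (Nat.sInf_le hmem).trans hcard⟩

end Pool.Agent.Results.MP_aa6a81_co.TwoLengths
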